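import Pool.Agent.H83.REC.Exi

/-!
# Classes with shrunk coordinates

`shf F k`: the family in which the coordinate `i` is divided by `2 ^ (k i)`; the lines stay lines,
the time and the side information do not change. `usf`: the inverse. `Shf S s`: the class of the
families `shf F (sd s J)`, `F` in `S`, where `sd s J i = ⌊s i * J⌋₊`. The class has the same
time deficits (`shf_tmC`), and base statements go in both directions (`bas_shf`, `bas_usf`).
`shf_X`: the digits. `vshf v s`: the zoom `v` for the shrunk families; its visible variable is read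
on the family itself. `zshf Z s`: a zoom of classes after the change of scale.
-/

set_option autoImplicit false

namespace Pool.SHF33

open Finset Real
open Pool.Agent.H49.Ent Pool.Agent.H32.Dense Pool.STK Pool.KA Pool.KSAT Pool.K2S Pool.PB Pool.S6C
open Pool.GEN Pool.REX Pool.REX83

variable {m n J : ℕ}

/-! ### Families -/

/-- The family with the coordinate `i` divided by `2 ^ (k i)`. -/
noncomputable def shf (F : Fam m J) (k : Fin m → ℕ) : Fam m J where
  Ω := F.Ω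
  ζ := F.ζ
  fin := F.fin
  p := F.p
  u := fun ω i => F.u ω i / 2 ^ k i
  d := fun ω i => F.d ω i / 2 ^ k i
  T := F.T
  Z := F.Z
  isLaw := F.isLaw
  dir := fun ω i => by
    rw [abs_div, abs_of_pos (by positivity : (0 : ℝ) < 2 ^ k i)]
    exact (div_le_self (abs_nonneg _) (one_le_pow₀ one_le_two)).trans (F.dir ω i)
  tim := F.tim

/-- The family with the coordinate `i` multiplied by `2 ^ (k i)`; the directions are cut at `1`. -/
noncomputable def usf (F : Fam m J) (k : Fin m → ℕ) : Fam m J where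
  Ω := F.Ω
  ζ := F.ζ
  fin := F.fin
  p := F.p
  u := fun ω i => 2 ^ k i * F.u ω i
  d := fun ω i => max (-1) (min 1 (2 ^ k i * F.d ω i))
  T := F.T
  Z := F.Z
  isLaw := F.isLaw
  dir := fun ω i => abs_le.2 ⟨le_max_left _ _, max_le (by norm_num) (min_le_left _ _)⟩
  tim := F.tim

/-- A family with the lines `u'`, `d'`. -/
def rel (F : Fam m J) (u' d' : F.Ω → Fin m → ℝ) (h' : ∀ ω i, |d' ω i| ≤ 1) : Fam m J where
  Ω := F.Ω
  ζ := F.ζ
  fin := F.fin
  p := F.p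
  u := u'
  d := d'
  T := F.T
  Z := F.Z
  isLaw := F.isLaw
  dir := h'
  tim := F.tim

theorem usf_u (F : Fam m J) (k : Fin m → ℕ) :
    (fun (ω : F.Ω) i => (2 : ℝ) ^ k i * (F.u ω i / 2 ^ k i)) = F.u := by
  funext ω i
  rw [mul_div_cancel₀]
  positivity

theorem usf_d (F : Fam m J) (k : Fin m → ℕ) :
    (fun (ω : F.Ω) i => max (-1 : ℝ) (min 1 (2 ^ k i * (F.d ω i / 2 ^ k i)))) = F.d := by
  funext ω i
  have h1 : (2 : ℝ) ^ k i * (F.d ω i / 2 ^ k i) = F.d ω i := by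
    rw [mul_div_cancel₀]
    positivity
  have h2 := abs_le.1 (F.dir ω i)
  rw [h1, min_eq_right h2.2, max_eq_right h2.1]

theorem usf_shf (F : Fam m J) (k : Fin m → ℕ) : ∃ h', usf (shf F k) k = rel F
    (fun ω i => 2 ^ k i * (F.u ω i / 2 ^ k i))
    (fun ω i => max (-1) (min 1 (2 ^ k i * (F.d ω i / 2 ^ k i)))) h' :=
  ⟨(usf (shf F k) k).dir, rfl⟩

/-- The family with the same lines is the same family. -/
theorem rel_iff (F : Fam m J) {Φ : ∀ G : Fam m J, (G.Ω → Prop) → Prop}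
    {u' d' : F.Ω → Fin m → ℝ} (h' : ∀ ω i, |d' ω i| ≤ 1) (hu : u' = F.u) (hd : d' = F.d)
    (A : F.Ω → Prop) : Φ (rel F u' d' h') A ↔ Φ F A := by
  subst hu hd
  exact Iff.rfl

theorem rel_y (v : Vz m) (F : Fam m J) {u' d' : F.Ω → Fin m → ℝ} (h' : ∀ ω i, |d' ω i| ≤ 1)
    (hu : u' = F.u) (hd : d' = F.d) (ω ω' : F.Ω) :
    v.y J (rel F u' d' h') ω = v.y J (rel F u' d' h') ω' ↔ v.y J F ω = v.y J F ω' := by
  subst hu hd
  exact Iff.rfl

/-- Statements about `usf (shf F k) k`. -/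
theorem us_iff (F : Fam m J) (k : Fin m → ℕ) {Φ : ∀ G : Fam m J, (G.Ω → Prop) → Prop}
    (A : F.Ω → Prop) : Φ (usf (shf F k) k) A ↔ Φ F A :=
  rel_iff F (Φ := Φ) (usf (shf F k) k).dir (usf_u F k) (usf_d F k) A

/-- The visible variable of `usf (shf F k) k`. -/
theorem us_y (v : Vz m) (F : Fam m J) (k : Fin m → ℕ) (ω ω' : F.Ω) :
    v.y J (usf (shf F k) k) ω = v.y J (usf (shf F k) k) ω' ↔ v.y J F ω = v.y J F ω' :=
  rel_y v F (usf (shf F k) k).dir (usf_u F k) (usf_d F k) ω ω'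

/-! ### Digits -/

section dig

variable (F : Fam m J) (k : Fin m → ℕ)

theorem shf_x (ω : F.Ω) (i : Fin m) : (shf F k).x ω i = F.x ω i / 2 ^ k i := by
  change F.u ω i / 2 ^ k i + F.t ω * (F.d ω i / 2 ^ k i) = (F.u ω i + F.t ω * F.d ω i) / 2 ^ k i
  ring

theorem floor_shf (a : ℝ) {j l : ℕ} (h : l ≤ j) :
    ⌊(2 : ℝ) ^ j * (a / 2 ^ l)⌋ = ⌊(2 : ℝ) ^ (j - l) * a⌋ := by
  have h1 : (2 : ℝ) ^ j * (a / 2 ^ l) = 2 ^ (j - l) * a := by
    obtain ⟨c, rfl⟩ := Nat.exists_eq_add_of_le h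
    rw [Nat.add_sub_cancel_left, pow_add]
    field_simp
  rw [h1]

/-- **The digits of the position.** -/
theorem shf_X {j : ℕ} (ω : F.Ω) {i : Fin m} (h : k i ≤ j) :
    (shf F k).X j ω i = F.X (j - k i) ω i := by
  have h1 : (shf F k).X j ω i = ⌊(2 : ℝ) ^ j * (shf F k).x ω i⌋ := rfl
  have h2 : F.X (j - k i) ω i = ⌊(2 : ℝ) ^ (j - k i) * F.x ω i⌋ := rfl
  rw [h1, h2, shf_x, floor_shf _ h]

/-- **The digits of the direction.** -/
theorem shf_D {j : ℕ} (ω : F.Ω) {i : Fin m} (h : k i ≤ j) :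
    (shf F k).D j ω i = F.D (j - k i) ω i := by
  have h1 : (shf F k).D j ω i = ⌊(2 : ℝ) ^ j * (F.d ω i / 2 ^ k i)⌋ := rfl
  have h2 : F.D (j - k i) ω i = ⌊(2 : ℝ) ^ (j - k i) * F.d ω i⌋ := rfl
  rw [h1, h2, floor_shf _ h]

/-- The lines. -/
theorem shf_l (ω ω' : F.Ω) : (shf F k).l ω = (shf F k).l ω' ↔ F.l ω = F.l ω' := by
  have h1 : ∀ {a b : ℝ} (i : Fin m), a / 2 ^ k i = b / 2 ^ k i → a = b := by
    intro a b i h
    exact (div_left_inj' (by positivity)).1 h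
  constructor
  · intro h
    have h2 : (fun i => F.u ω i / (2 : ℝ) ^ k i) = fun i => F.u ω' i / 2 ^ k i :=
      congrArg Prod.fst h
    have h3 : (fun i => F.d ω i / (2 : ℝ) ^ k i) = fun i => F.d ω' i / 2 ^ k i :=
      congrArg Prod.snd h
    exact Prod.ext (funext fun i => h1 i (congrFun h2 i)) (funext fun i => h1 i (congrFun h3 i))
  · intro h
    have h2 : F.u ω = F.u ω' := congrArg Prod.fst h
    have h3 : F.d ω = F.d ω' := congrArg Prod.snd h
    change ((fun i => F.u ω i / (2 : ℝ) ^ k i), fun i => F.d ω i / (2 : ℝ) ^ k i) =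
      ((fun i => F.u ω' i / (2 : ℝ) ^ k i), fun i => F.d ω' i / (2 : ℝ) ^ k i)
    rw [h2, h3]

/-- The lines with their windows. -/
theorem shf_slam (w : ℕ) (ω ω' : F.Ω) :
    slam (shf F k) w ω = slam (shf F k) w ω' ↔ slam F w ω = slam F w ω' := by
  have h1 := shf_l F k ω ω'
  constructor
  · intro h
    have h2 := congrArg Prod.snd h
    exact Prod.ext (h1.1 (congrArg Prod.fst h)) h2
  · intro h
    have h2 := congrArg Prod.snd h
    exact Prod.ext (h1.2 (congrArg Prod.fst h)) h2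

/-- The lines of `usf` are functions of the lines. -/
theorem usf_slam (w : ℕ) {ω ω' : F.Ω} (h : slam F w ω = slam F w ω') :
    slam (usf F k) w ω = slam (usf F k) w ω' := by
  have h0 : F.l ω = F.l ω' := congrArg Prod.fst h
  have h2 : F.u ω = F.u ω' := congrArg Prod.fst h0
  have h3 : F.d ω = F.d ω' := congrArg Prod.snd h0
  have h4 := congrArg Prod.snd h
  refine Prod.ext ?_ h4
  change ((fun i => (2 : ℝ) ^ k i * F.u ω i), fun i => max (-1 : ℝ) (min 1 (2 ^ k i * F.d ω i))) =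
    ((fun i => (2 : ℝ) ^ k i * F.u ω' i), fun i => max (-1 : ℝ) (min 1 (2 ^ k i * F.d ω' i)))
  rw [h2, h3]

/-- The deficit of the time. -/
theorem shf_tm {e : ℝ} (h : F.Tm e) : (shf F k).Tm e := by
  unfold Fam.Tm at h ⊢
  refine h.trans ?_
  change CH F.p F.T (fun ω => (F.l ω, F.Z ω)) ≤ CH F.p F.T (fun ω => ((shf F k).l ω, F.Z ω))
  refine CH_mono_cond F.isLaw.nonneg fun ω ω' _ _ e => ?_
  have e1 := congrArg Prod.fst e
  have e2 := congrArg Prod.snd e
  exact Prod.ext ((shf_l F k ω ω').2 e1) e2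

end dig

/-! ### Classes -/

/-- The numbers of digits. -/
noncomputable def sd (s : Fin m → ℝ) (J : ℕ) (i : Fin m) : ℕ := ⌊s i * J⌋₊

/-- The families of a class, with shrunk coordinates. -/
inductive ShfSt (S : PCl m) (s : Fin m → ℝ) (τ : ℝ) :
    ∀ (J : ℕ) (F : Fam m J), (F.Ω → Prop) → Prop
  | mk (J : ℕ) (F : Fam m J) (A : F.Ω → Prop) (hS : S.St τ J F A) :
      ShfSt S s τ J (shf F (sd s J)) A

/-- **The class with shrunk coordinates.** -/
def Shf (S : PCl m) (s : Fin m → ℝ) : PCl m where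
  St := ShfSt S s
  mono := by
    rintro τ τ' J F A h ⟨F, A, hS⟩
    exact ShfSt.mk J F A (S.mono h hS)
  res := by
    rintro τ τ' J F A B h0 ⟨F, A, hS⟩ hB hP
    exact ShfSt.mk J F B (S.res h0 hS hB hP)

section cls

variable {S S' : PCl m} {s : Fin m → ℝ}

theorem shf_mk {τ : ℝ} {F : Fam m J} {A : F.Ω → Prop} (hS : S.St τ J F A) :
    (Shf S s).St τ J (shf F (sd s J)) A := ShfSt.mk J F A hS

theorem shf_cases {τ : ℝ} {Φ : Stat m} (h : ∀ (J : ℕ) (F : Fam m J) (A : F.Ω → Prop),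
    S.St τ J F A → Φ J (shf F (sd s J)) A) {F : Fam m J} {A : F.Ω → Prop}
    (hA : (Shf S s).St τ J F A) : Φ J F A := by
  obtain ⟨F, A, hS⟩ := hA
  exact h J F A hS

theorem shf_usf {τ : ℝ} {F : Fam m J} {A : F.Ω → Prop} (hA : (Shf S s).St τ J F A) :
    S.St τ J (usf F (sd s J)) A :=
  shf_cases (Φ := fun J F A => S.St τ J (usf F (sd s J)) A)
    (fun J F A hS => (us_iff F (sd s J) (Φ := fun G A => S.St τ J G A) A).2 hS) hA

theorem shf_iff {τ : ℝ} {F : Fam m J} {A : F.Ω → Prop} :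
    (Shf S s).St τ J (shf F (sd s J)) A ↔ S.St τ J F A :=
  ⟨fun h => (us_iff F (sd s J) (Φ := fun G A => S.St τ J G A) A).1 (shf_usf h), shf_mk⟩

theorem shf_ne (hS : S.Ne) : (Shf S s).Ne := by
  intro τ hτ J₁
  obtain ⟨J, hJ, F, A, hA⟩ := hS τ hτ J₁
  exact ⟨J, hJ, shf F (sd s J), A, shf_mk hA⟩

theorem shf_sub (h : ∀ (τ : ℝ) (J : ℕ) (F : Fam m J) (A : F.Ω → Prop), S'.St τ J F A →
    S.St τ J F A) (τ : ℝ) (J : ℕ) (F : Fam m J) (A : F.Ω → Prop) (hA : (Shf S' s).St τ J F A) :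
    (Shf S s).St τ J F A :=
  shf_cases (Φ := fun J F A => (Shf S s).St τ J F A) (fun J F A hS => shf_mk (h τ J F A hS)) hA

theorem shf_le (h : S'.Le S) : (Shf S' s).Le (Shf S s) := by
  obtain ⟨τ₀, hτ₀, h⟩ := h
  refine ⟨τ₀, hτ₀, fun τ h1 h2 J F A hA => ?_⟩
  exact shf_cases (Φ := fun J F A => (Shf S s).St τ J F A)
    (fun J F A hS => shf_mk (h τ h1 h2 J F A hS)) hA

theorem shf_pos (hpos : ∀ (τ : ℝ) (J : ℕ) (F : Fam m J) (A : F.Ω → Prop), S.St τ J F A →
    0 < Pe F.p A) (τ : ℝ) (J : ℕ) (F : Fam m J) (A : F.Ω → Prop)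
    (hA : (Shf S s).St τ J F A) : 0 < Pe F.p A :=
  shf_cases (Φ := fun _ F A => 0 < Pe F.p A) (fun J F A hS => hpos τ J F A hS) hA

/-- **The time deficits.** -/
theorem shf_tmC {C₀ : ℝ} (h : TmC S C₀) : TmC (Shf S s) C₀ := by
  intro τ J F A hτ hA
  refine shf_cases (S := S) (s := s) (τ := τ) (Φ := fun J F A => 0 < Pe F.p A ∧
    ∀ h : IsLaw (Pool.Agent.H49.Ent.cond F.p A True), (F.res A True h).Tm (C₀ * τ * J)) ?_ hA
  intro J F A hS
  obtain ⟨h1, h2⟩ := h τ J F A hτ hS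
  exact ⟨h1, fun h3 => shf_tm (F.res A True h3) (sd s J) (h2 h3)⟩

/-- **Base statements**: of the class with shrunk coordinates. -/
theorem bas_shf {Φ : Stat m} :
    Bas (Shf S s) Φ ↔ Bas S (fun J F A => Φ J (shf F (sd s J)) A) := by
  constructor
  · rintro ⟨τ, hτ, J₁, h⟩
    exact ⟨τ, hτ, J₁, fun J hJ F A hA => h J hJ (shf F (sd s J)) A (shf_mk hA)⟩
  · rintro ⟨τ, hτ, J₁, h⟩
    refine ⟨τ, hτ, J₁, fun J hJ F A hA => ?_⟩
    exact shf_cases (S := S) (s := s) (τ := τ) (Φ := fun J F A => J₁ ≤ J → Φ J F A)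
      (fun J F A hS hJ => h J hJ F A hS) hA hJ

/-- **Base statements**: of the class. -/
theorem bas_usf {Φ : Stat m} :
    Bas (Shf S s) (fun J F A => Φ J (usf F (sd s J)) A) ↔ Bas S Φ := by
  rw [bas_shf]
  have h1 : (fun (J : ℕ) (F : Fam m J) (A : F.Ω → Prop) =>
      Φ J (usf (shf F (sd s J)) (sd s J)) A) = Φ := by
    funext J F A
    exact propext (us_iff F (sd s J) (Φ := fun G A => Φ J G A) A)
  rw [h1]

/-- The families whose shrinkings are in a class. -/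
def pulS (S : PCl m) (s : Fin m → ℝ) (S' : PCl m) : PCl m where
  St τ J F A := S.St τ J F A ∧ S'.St τ J (shf F (sd s J)) A
  mono h hA := ⟨S.mono h hA.1, S'.mono h hA.2⟩
  res h0 hA hB hP := ⟨S.res h0 hA.1 hB hP, S'.res h0 hA.2 hB hP⟩

theorem pulS_sub (τ : ℝ) (J : ℕ) (F : Fam m J) (A : F.Ω → Prop)
    (h : (pulS S s S').St τ J F A) : S.St τ J F A := h.1

/-- **A subclass of the class with shrunk coordinates comes from a subclass.** -/
theorem shf_pulS (h : ∀ (τ : ℝ) (J : ℕ) (F : Fam m J) (A : F.Ω → Prop), S'.St τ J F A →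
    (Shf S s).St τ J F A) (τ : ℝ) (J : ℕ) (F : Fam m J) (A : F.Ω → Prop) :
    (Shf (pulS S s S') s).St τ J F A ↔ S'.St τ J F A := by
  constructor
  · intro hA
    exact shf_cases (S := pulS S s S') (Φ := fun J F A => S'.St τ J F A)
      (fun J F A hS => hS.2) hA
  · intro hA
    exact shf_cases (S := S) (s := s) (τ := τ) (Φ := fun J F A => S'.St τ J F A →
      (Shf (pulS S s S') s).St τ J F A) (fun J F A hS h' => shf_mk ⟨hS, h'⟩) (h τ J F A hA) hA

theorem pulS_ne (hne : S'.Ne) (h : ∀ (τ : ℝ) (J : ℕ) (F : Fam m J) (A : F.Ω → Prop),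
    S'.St τ J F A → (Shf S s).St τ J F A) : (pulS S s S').Ne := by
  intro τ hτ J₁
  obtain ⟨J, hJ, F, A, hA⟩ := hne τ hτ J₁
  have h1 := (shf_pulS h τ J F A).2 hA
  exact ⟨J, hJ, usf F (sd s J), A, shf_usf h1⟩

end cls

/-! ### Zooms -/

/-- **The zoom of the shrunk families.** The visible variable is read on the family itself. -/
noncomputable def vshf (v : Vz m) (s : Fin m → ℝ) : Vz m where
  b := v.b
  p := v.p
  b0 := v.b0
  b1 := v.b1
  p0 := v.p0
  p1 := v.p1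
  κ J F := v.κ J (usf F (sd s J))
  y J F := v.y J (usf F (sd s J))
  line J F ω ω' h := v.line J (usf F (sd s J)) ω ω' (usf_slam F (sd s J) _ h)

/-- The visible variable. -/
theorem vshf_y (v : Vz m) (s : Fin m → ℝ) (F : Fam m J) (ω ω' : F.Ω) :
    (vshf v s).y J (shf F (sd s J)) ω = (vshf v s).y J (shf F (sd s J)) ω' ↔
      v.y J F ω = v.y J F ω' := us_y v F (sd s J) ω ω'

/-- The families whose shrinkings are in a slice. -/
def sls (s : Fin m → ℝ) (P : Sld m) : Sld m where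
  P τ J F A := P.P τ J (shf F (sd s J)) A
  mono h hA := P.mono h hA
  res h0 hA hB hP := P.res h0 hA hB hP

theorem sls_sub (S : PCl m) (s : Fin m → ℝ) (P : Sld m) (τ : ℝ) (J : ℕ) (F : Fam m J)
    (A : F.Ω → Prop) (hA : (Shf (S.sl (sls s P)) s).St τ J F A) :
    ((Shf S s).sl P).St τ J F A :=
  shf_cases (S := S.sl (sls s P)) (Φ := fun J F A => ((Shf S s).sl P).St τ J F A)
    (fun _ _ _ hS => ⟨shf_mk hS.1, hS.2⟩) hA

/-- **A zoom of classes, after the change of scale.** -/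
def zshf (Z : ZC m n) (s : Fin m → ℝ) : ZC m n where
  W S := Z.W (Shf S s)
  sl S' := sls s (Z.sl S')
  le h _ hb := Z.le (shf_le h) hb
  ne hS := Z.ne (shf_ne hS)
  mono h := Z.mono (shf_sub h)
  pos hpos := Z.pos (shf_pos hpos)
  slne := by
    intro S₁ S' hne hsub
    have h1 := Z.slne hne hsub
    intro τ hτ J₁
    obtain ⟨J, hJ, F, A, hA⟩ := h1 τ hτ J₁
    have key := shf_cases (S := S₁) (s := s) (τ := τ) (Φ := fun J F A => (Z.sl S').P τ J F A →
      ∃ (F' : Fam m J) (A : F'.Ω → Prop), (S₁.sl (sls s (Z.sl S'))).St τ J F' A)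
      (fun J F A hS h2 => ⟨F, A, hS, h2⟩) hA.1
    obtain ⟨F', A', h3⟩ := key hA.2
    exact ⟨J, hJ, F', A', h3⟩
  slbas := by
    intro S₁ S' Φ hb
    exact Z.le (sub_le (sls_sub S₁ s (Z.sl S'))) (Z.slbas hb)

end Pool.SHF33
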