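import Pool.Agent.H65.NFC.Rdq
import Pool.Agent.H33.SHF.Shf

/-!
# The rate of the last coordinate for a class with shrunk coordinates

`shf_rate`: the rate of the target (`RDq.rate` for `Shf S s`) as a statement about `S`: the digits
`r₁, …, r₂` of the target, `r₂ + s ≤ 1`, given the other coordinates to `J - ⌊s J⌋` digits. The
number of the greedy order is the number for the shrunk coordinates. `rdqs_all`: the data of
countably many zooms of classes with shrunk coordinates.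
-/

set_option autoImplicit false

namespace Pool.SHF33

open Finset Real MeasureTheory
open Pool.Agent.H49.Ent Pool.Agent.H32.Dense Pool.STK Pool.KA Pool.KSAT Pool.K2S Pool.PB Pool.S6C
open Pool.GEN Pool.REX Pool.REX83 Pool.FRX

variable {m n J : ℕ}

/-- The digits are a function of finer digits. -/
theorem X_det (F : Fam m J) {k k' : ℕ} (h : k ≤ k') (i : Fin m) {ω ω' : F.Ω}
    (e : F.X k' ω i = F.X k' ω' i) : F.X k ω i = F.X k ω' i := by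
  have h1 : ∀ ω : F.Ω, F.X k ω i = F.X k' ω i / 2 ^ (k' - k) := by
    intro ω
    show ⌊(2 : ℝ) ^ k * F.x ω i⌋ = ⌊(2 : ℝ) ^ k' * F.x ω i⌋ / 2 ^ (k' - k)
    have h2 := Int.floor_div_natCast ((2 : ℝ) ^ k' * F.x ω i) (2 ^ (k' - k))
    push_cast at h2
    rw [← h2]
    congr 1
    obtain ⟨a, rfl⟩ := Nat.exists_eq_add_of_le h
    rw [Nat.add_sub_cancel_left, pow_add]
    field_simp
  rw [h1, h1, e]

/-- The floors. -/
theorem floor_add_shf {r s : ℝ} (hr : 0 ≤ r) (hs : 0 ≤ s) (J : ℕ) :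
    ⌊s * J⌋₊ ≤ ⌊(r + s) * J⌋₊ ∧ ⌊r * J⌋₊ ≤ ⌊(r + s) * J⌋₊ - ⌊s * J⌋₊ ∧
      ⌊(r + s) * J⌋₊ - ⌊s * J⌋₊ ≤ ⌊r * J⌋₊ + 1 := by
  have hJ : (0 : ℝ) ≤ J := Nat.cast_nonneg J
  have hr' : 0 ≤ r * J := mul_nonneg hr hJ
  have hs' : 0 ≤ s * J := mul_nonneg hs hJ
  have e1 : (r + s) * (J : ℝ) = r * J + s * J := by ring
  have h1 := Nat.floor_le hr'
  have h2 := Nat.floor_le hs'
  have h3 : ⌊r * J⌋₊ + ⌊s * J⌋₊ ≤ ⌊(r + s) * J⌋₊ := by
    rw [e1]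
    refine Nat.le_floor ?_
    push_cast
    linarith
  have h4 : ⌊(r + s) * J⌋₊ < ⌊r * J⌋₊ + ⌊s * J⌋₊ + 2 := by
    rw [e1]
    refine (Nat.floor_lt (by linarith)).2 ?_
    push_cast
    linarith [Nat.lt_floor_add_one (r * (J : ℝ)), Nat.lt_floor_add_one (s * (J : ℝ))]
  omega

/-- **The rate of the target for the shrunk coordinates**, one family. -/
theorem shf_row (v : Vz m) (s : Fin m → ℝ) (F : Fam m J) {q : F.Ω → ℝ} (hq : IsLaw q)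
    (e : Fin n → Fin m) (i : Fin n) (hs : 0 ≤ s (e i)) {r₁ r₂ : ℝ} (hr1 : 0 ≤ r₁) (hr2 : 0 ≤ r₂)
    (kk : Fin n → ℕ) (hkk : ∀ j, j ≠ i → kk j + sd s J (e j) ≤ J) :
    CH q (fun ω => (shf F (sd s J)).X ⌊(r₂ + s (e i)) * J⌋₊ ω (e i))
      (fun ω => (dB (shf F (sd s J)) e i ⌊(r₁ + s (e i)) * J⌋₊ ω,
        ((vshf v s).y J (shf F (sd s J)) ω, (shf F (sd s J)).W ω))) ≤
    CH q (fun ω => F.X ⌊r₂ * J⌋₊ ω (e i))
      (fun ω => ((F.X ⌊r₁ * J⌋₊ ω (e i), fun j => if j = i then 0 else F.X (kk j) ω (e j)),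
        (v.y J F ω, F.W ω))) + k99 := by
  obtain ⟨a1, b1, -⟩ := floor_add_shf hr1 hs J
  obtain ⟨a2, b2, c2⟩ := floor_add_shf hr2 hs J
  obtain ⟨Y, hY⟩ : ∃ Y : F.Ω → (ℤ × (Fin n → ℤ)) × ((vshf v s).κ J (shf F (sd s J)) ×
      (ℕ × F.ζ)), Y = fun ω => (dB (shf F (sd s J)) e i ⌊(r₁ + s (e i)) * J⌋₊ ω,
        ((vshf v s).y J (shf F (sd s J)) ω, (shf F (sd s J)).W ω)) := ⟨_, rfl⟩
  have e2 : (fun ω : F.Ω => (shf F (sd s J)).X ⌊(r₂ + s (e i)) * J⌋₊ ω (e i)) =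
      fun ω => F.X (⌊(r₂ + s (e i)) * J⌋₊ - ⌊s (e i) * J⌋₊) ω (e i) := by
    funext ω
    exact shf_X F (sd s J) ω (i := e i) a2
  have h1 := CH_le_add hq.nonneg
    (fun ω => F.X (⌊(r₂ + s (e i)) * J⌋₊ - ⌊s (e i) * J⌋₊) ω (e i))
    (fun ω => F.X ⌊r₂ * J⌋₊ ω (e i)) Y
  have h2 : CH q (fun ω => F.X (⌊(r₂ + s (e i)) * J⌋₊ - ⌊s (e i) * J⌋₊) ω (e i))
      (fun ω => (F.X ⌊r₂ * J⌋₊ ω (e i), Y ω)) ≤ k99 := by
    refine few1 hq _ _ fun ω ω' _ _ hh => ?_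
    have h3 : F.X ⌊r₂ * J⌋₊ ω (e i) = F.X ⌊r₂ * J⌋₊ ω' (e i) := congrArg Prod.fst hh
    have h4 := Plk.abs_sub_lt_of_floor (h3 :
      ⌊(2 : ℝ) ^ ⌊r₂ * J⌋₊ * F.x ω (e i)⌋ = ⌊(2 : ℝ) ^ ⌊r₂ * J⌋₊ * F.x ω' (e i)⌋)
    obtain ⟨K, hK⟩ : ∃ K, K = ⌊(r₂ + s (e i)) * J⌋₊ - ⌊s (e i) * J⌋₊ := ⟨_, rfl⟩
    obtain ⟨K', hK'⟩ : ∃ K', K' = ⌊r₂ * (J : ℝ)⌋₊ := ⟨_, rfl⟩
    rw [← hK, ← hK'] at b2 c2
    rw [← hK'] at h4
    rw [← hK]
    refine fl_near (c := 2) ?_ (by norm_num)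
    have h5 : (2 : ℝ) ^ K ≤ 2 * 2 ^ K' := by
      rw [← pow_succ']
      exact pow_le_pow_right₀ one_le_two c2
    have h6 : |(2 : ℝ) ^ K * F.x ω (e i) - 2 ^ K * F.x ω' (e i)| =
        2 ^ K * |F.x ω (e i) - F.x ω' (e i)| := by
      rw [← mul_sub, abs_mul, abs_of_pos (by positivity : (0 : ℝ) < 2 ^ K)]
    have h7 : |(2 : ℝ) ^ K' * F.x ω (e i) - 2 ^ K' * F.x ω' (e i)| =
        2 ^ K' * |F.x ω (e i) - F.x ω' (e i)| := by
      rw [← mul_sub, abs_mul, abs_of_pos (by positivity : (0 : ℝ) < 2 ^ K')]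
    rw [h6]
    rw [h7] at h4
    have h8 := mul_le_mul_of_nonneg_right h5 (abs_nonneg (F.x ω (e i) - F.x ω' (e i)))
    linarith
  have h3 : CH q (fun ω => F.X ⌊r₂ * J⌋₊ ω (e i)) Y ≤
      CH q (fun ω => F.X ⌊r₂ * J⌋₊ ω (e i))
      (fun ω => ((F.X ⌊r₁ * J⌋₊ ω (e i), fun j => if j = i then 0 else F.X (kk j) ω (e j)),
        (v.y J F ω, F.W ω))) := by
    refine CH_mono_cond hq.nonneg fun ω ω' _ _ hh => ?_
    rw [hY] at hh
    have g1 : (shf F (sd s J)).X ⌊(r₁ + s (e i)) * J⌋₊ ω (e i) =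
        (shf F (sd s J)).X ⌊(r₁ + s (e i)) * J⌋₊ ω' (e i) :=
      congrArg Prod.fst (congrArg Prod.fst hh)
    have g2 : (fun j => if j = i then 0 else (shf F (sd s J)).X J ω (e j)) =
        fun j => if j = i then 0 else (shf F (sd s J)).X J ω' (e j) :=
      congrArg Prod.snd (congrArg Prod.fst hh)
    have g3 : (vshf v s).y J (shf F (sd s J)) ω = (vshf v s).y J (shf F (sd s J)) ω' :=
      congrArg Prod.fst (congrArg Prod.snd hh)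
    have g4 : F.W ω = F.W ω' := congrArg Prod.snd (congrArg Prod.snd hh)
    have g5 : F.X ⌊r₁ * J⌋₊ ω (e i) = F.X ⌊r₁ * J⌋₊ ω' (e i) := by
      have e3 := shf_X F (sd s J) ω (i := e i) (j := ⌊(r₁ + s (e i)) * J⌋₊) a1
      have e4 := shf_X F (sd s J) ω' (i := e i) (j := ⌊(r₁ + s (e i)) * J⌋₊) a1
      exact X_det F b1 (e i) (e3.symm.trans (g1.trans e4))
    have g6 : (fun j => if j = i then 0 else F.X (kk j) ω (e j)) =
        fun j => if j = i then 0 else F.X (kk j) ω' (e j) := by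
      funext j
      by_cases hj : j = i
      · rw [if_pos hj, if_pos hj]
      · have g7 := congrFun g2 j
        have hk := hkk j hj
        simp only [if_neg hj] at g7 ⊢
        have e3 := shf_X F (sd s J) ω (i := e j) (j := J) (by omega)
        have e4 := shf_X F (sd s J) ω' (i := e j) (j := J) (by omega)
        exact X_det F (k' := J - sd s J (e j)) (by omega) (e j) (e3.symm.trans (g7.trans e4))
    exact Prod.ext (Prod.ext g5 g6) (Prod.ext ((vshf_y v s F ω ω').1 g3) g4)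
  have h9 := h1.trans (add_le_add h3 h2)
  rw [hY] at h9
  rw [e2]
  exact h9

/-- **The rate of the last coordinate for the shrunk coordinates**, as a statement about the class.
`w`: a window of the zoom; the number of the shrunk target is at most `r₁ + s`. -/
theorem shf_rate {S : PCl m} {s : Fin m → ℝ} {v : Vz m} {ε : Fin n → Fin m} {p : ℝ} {κ : Fin n}
    {L : Finset (Fin n) → Fin n → ℝ → ℝ → ℝ} (h : RDq (Shf S s) (vshf v s) ε p κ L) (hne : S.Ne)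
    {C₀ : ℝ} (hC₀ : 0 ≤ C₀) (htm : TmC S C₀) {x : ℝ} (hF : FZQ n x) {w : ℝ} {σ : Fin n → Fin n}
    (hσ : Function.Injective σ) (hw : w ∈ Wv L σ) (hσ0 : ∀ j : Fin n, (j : ℕ) = 0 → σ j = κ)
    {i : Fin n} (hi : (i : ℕ) + 1 = n) (hs : 0 ≤ s (ε (σ i))) {r₁ r₂ : ℝ} (hr0 : 0 ≤ r₁)
    (hr12 : r₁ ≤ r₂) (hr2 : r₂ + s (ε (σ i)) ≤ 1)
    (hr1 : v.b + (1 - v.b) * (p + (1 - p) * vs L σ w n) ≤ r₁ + s (ε (σ i)))
    {ρ : ℝ} (hρ : 0 < ρ) : Bas S (fun J F A => ∀ kk : Fin n → ℕ,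
      (∀ j, j ≠ i → kk j + sd s J (ε (σ j)) ≤ J) →
      ((1 - x) * (r₂ - r₁) - ρ) * Real.log 2 * J ≤
        CH (Pool.Agent.H49.Ent.cond F.p A True) (fun ω => F.X ⌊r₂ * J⌋₊ ω (ε (σ i)))
          (fun ω => ((F.X ⌊r₁ * J⌋₊ ω (ε (σ i)),
            fun j => if j = i then 0 else F.X (kk j) ω (ε (σ j))), (v.y J F ω, F.W ω)))) := by
  have hb1 : v.b < 1 := v.b1
  have hp1 := h.p1
  obtain ⟨c, hc⟩ : ∃ c, c = (1 - v.b) * (1 - p) := ⟨_, rfl⟩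
  have hc0 : 0 < c := by
    rw [hc]
    exact mul_pos (by linarith) (by linarith)
  obtain ⟨s₀, hs₀⟩ : ∃ s₀, s₀ = s (ε (σ i)) := ⟨_, rfl⟩
  obtain ⟨Q, hQ⟩ : ∃ Q : ℝ → ℝ, Q = fun r => (r + s₀ - v.b - (1 - v.b) * p) / c := ⟨_, rfl⟩
  have hQe : ∀ r, v.b + (1 - v.b) * (p + (1 - p) * Q r) = r + s₀ := by
    intro r
    have h1 : c * Q r = r + s₀ - v.b - (1 - v.b) * p := by
      rw [hQ]
      exact mul_div_cancel₀ _ hc0.ne'
    have h2 : v.b + (1 - v.b) * (p + (1 - p) * Q r) = v.b + (1 - v.b) * p + c * Q r := by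
      rw [hc]
      ring
    rw [h2, h1]
    ring
  have hle : ∀ {a b : ℝ}, v.b + (1 - v.b) * (p + (1 - p) * a) ≤
      v.b + (1 - v.b) * (p + (1 - p) * b) → a ≤ b := by
    intro a b hab
    have h2 : c * a ≤ c * b := by
      rw [hc]
      linarith [hab]
    exact le_of_mul_le_mul_left h2 hc0
  rw [← hs₀] at hs hr2 hr1
  have hQ1 : vs L σ w n ≤ Q r₁ := hle (by rw [hQe]; exact hr1)
  have hQ12 : Q r₁ ≤ Q r₂ := hle (by rw [hQe, hQe]; linarith)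
  have hQ2 : Q r₂ ≤ 1 := hle (by rw [hQe]; linarith)
  have h1 := h.rate (shf_ne hne) hC₀ (shf_tmC htm) hF hσ hw hσ0 hi hQ1 hQ12 hQ2
    (ρ := ρ / 2) (by linarith)
  have e1 : (vshf v s).b = v.b := rfl
  rw [e1] at h1
  simp only [hQe] at h1
  have h2 := bas_shf.1 h1
  have hpos : Bas S (fun _ F A => 0 < Pe F.p A) :=
    ⟨1, one_pos, 0, fun J _ F A hA => (htm 1 J F A one_pos hA).1⟩
  obtain ⟨J₂, hJ₂⟩ := exists_nat_ge (k99 / (ρ / 2 * Real.log 2))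
  have hl2 : 0 < Real.log 2 := Real.log_pos one_lt_two
  refine Bas.mono J₂ (h2.and hpos) ?_
  rintro J hJ F A ⟨h3, hA⟩ kk hkk
  have hq : IsLaw (Pool.Agent.H49.Ent.cond F.p A True) := isLaw_cond F.isLaw hA
  have h4 := shf_row v s F hq (fun j => ε (σ j)) i (by rw [← hs₀]; exact hs) hr0
    (hr0.trans hr12) kk hkk
  simp only [← hs₀] at h4
  have h5 : (k99 : ℝ) ≤ ρ / 2 * Real.log 2 * J := by
    have h6 : k99 / (ρ / 2 * Real.log 2) ≤ J := hJ₂.trans (by exact_mod_cast hJ)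
    rw [div_le_iff₀ (by positivity)] at h6
    linarith
  have h7 := h3.trans h4
  have h8 : ((1 - x) * (r₂ - r₁) - ρ) * Real.log 2 * J =
      ((1 - x) * ((r₂ + s₀) - (r₁ + s₀)) - ρ / 2) * Real.log 2 * J - ρ / 2 * Real.log 2 * J := by
    ring
  rw [h8]
  linarith

/-- **The data of countably many zooms of classes with shrunk coordinates** (`rdq_all`). -/
theorem rdqs_all {S : PCl m} (hS : S.Ne)
    (hpos : ∀ (τ : ℝ) (J : ℕ) (F : Fam m J) (A : F.Ω → Prop), S.St τ J F A → 0 < Pe F.p A)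
    {ι : Type} [Countable ι] (k : ι → ℕ) (s : ι → Fin m → ℝ) (v : ι → Vz m)
    (ε : ∀ i, Fin (k i) → Fin m) :
    ∃ (S₁ : PCl m) (N : ∀ i, Finset (Fin (k i)) → ℝ → ℝ → ℝ), S₁.Ne ∧
      (∀ (τ : ℝ) (J : ℕ) (F : Fam m J) (A : F.Ω → Prop), S₁.St τ J F A → S.St τ J F A) ∧
      (∀ i, ActN (WyV (Shf S₁ (s i)) (vshf (v i) (s i)) (ε i)) (N i)) ∧
      ∀ (S₂ : PCl m), S₂.Ne →
        (∀ (τ : ℝ) (J : ℕ) (F : Fam m J) (A : F.Ω → Prop), S₂.St τ J F A → S₁.St τ J F A) →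
      ∀ e₀ : ℝ, 0 < e₀ → ∃ e : ℝ, 0 < e ∧ e < e₀ ∧
      ∃ (S₃ : PCl m) (L : ∀ i, Finset (Fin (k i)) → Fin (k i) → ℝ → ℝ → ℝ), S₃.Ne ∧
        (∀ (τ : ℝ) (J : ℕ) (F : Fam m J) (A : F.Ω → Prop), S₃.St τ J F A → S₂.St τ J F A) ∧
        ∀ i, 1 / (1 - (v i).b) * e < ttl (N i) (1 / 2) →
          ttl (N i) (fp (ttl (N i)) (1 / (1 - (v i).b) * e)) = 1 / (1 - (v i).b) * e ∧
          ∃ κ : Fin (k i), RDq (Shf S₃ (s i)) (vshf (v i) (s i)) (ε i)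
            (fp (ttl (N i)) (1 / (1 - (v i).b) * e)) κ (L i) := by
  obtain ⟨v', hv'⟩ : ∃ v' : ι → Vz m, v' = fun i => vshf (v i) (s i) := ⟨_, rfl⟩
  have hvb : ∀ i, (v' i).b = (v i).b := fun i => by
    rw [hv']
    rfl
  obtain ⟨S₁, N, hne, hsub, hN⟩ := act_all hS hpos k (fun i => zshf (wyZ (v' i) (ε i)) (s i))
  have hN' : ∀ i, ActN (WyV (Shf S₁ (s i)) (v' i) (ε i)) (N i) := fun i => hN i
  refine ⟨S₁, N, hne, hsub, fun i => by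
    have h1 := hN' i
    rw [hv'] at h1
    exact h1, fun S₂ hne₂ hsub₂ e₀ he₀ => ?_⟩
  have hc : ∀ i, 0 < 1 / (1 - (v i).b) := fun i => by
    have := (v i).b1
    have h1 : 0 < 1 - (v i).b := by linarith
    positivity
  obtain ⟨e, he, hee, hlev⟩ :=
    lev_gen' (S := fun i => WyV (Shf S₁ (s i)) (v' i) (ε i)) hN' hc he₀
  -- the tubes
  obtain ⟨p, hp⟩ : ∃ p : ι → ℝ, p = fun i =>
    min (fp (ttl (N i)) (1 / (1 - (v i).b) * e)) (1 / 2) := ⟨_, rfl⟩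
  have hp0 : ∀ i, 0 ≤ p i := fun i => by
    rw [hp]
    exact le_min (fp_nonneg _ _) (by norm_num)
  have hp1 : ∀ i, p i < 1 := fun i => by
    rw [hp]
    exact (min_le_right _ _).trans_lt (by norm_num)
  obtain ⟨S₃, L, hne₃, hsub₃, hL⟩ := lam_all hne₂ k
    (fun i => zshf (reZ (atp (v' i) (p i) (hp0 i) (hp1 i)) (ε i)) (s i))
  refine ⟨e, he, hee, S₃, L, hne₃, hsub₃, fun i hi => ?_⟩
  obtain ⟨q0, q1, q2, q3⟩ := hlev i (1 / 2) (by norm_num) (by norm_num) hi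
  refine ⟨q2, ?_⟩
  have hpi : p i = fp (ttl (N i)) (1 / (1 - (v i).b) * e) := by
    rw [hp]
    exact min_eq_left q1.le
  rw [← hpi] at q0 q1 q3 ⊢
  have hsub₃' : ∀ (τ : ℝ) (J : ℕ) (F : Fam m J) (A : F.Ω → Prop), S₃.St τ J F A →
      S₁.St τ J F A := fun τ J F A h => hsub₂ τ J F A (hsub₃ τ J F A h)
  have hpos₃ : ∀ (τ : ℝ) (J : ℕ) (F : Fam m J) (A : F.Ω → Prop), S₃.St τ J F A →
      0 < Pe F.p A := fun τ J F A h => hpos τ J F A (hsub τ J F A (hsub₃' τ J F A h))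
  -- the active coordinate
  have hN₃ : ActN (WyV (Shf S₃ (s i)) (v' i) (ε i)) (N i) :=
    actN_of_bas (fun Φ hb => wyv_le (v' i) (ε i) (shf_le (sub_le hsub₃')) hb) (hN' i)
  obtain ⟨κ, Na, al, g₀, hal, hg₀, hM, hB⟩ := tub_act hN₃
    (wyv_pos (v' i) (ε i) (shf_pos hpos₃)) q0.le q1.le q3
  have hLi : LamW (RecV (Shf S₃ (s i)) (atp (v' i) (p i) (hp0 i) (hp1 i)) (ε i)) (L i) := hL i
  have hBi : ActB Na (RecV (Shf S₃ (s i)) (atp (v' i) (p i) (hp0 i) (hp1 i)) (ε i)) κ :=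
    actB_of_bas (fun Φ hb => Bas.sub (fun τ J F A hA =>
      recv_atp (Shf S₃ (s i)) (v' i) (ε i) (p i) (hp0 i) (hp1 i) hA) hb) hB
  have hneR : (RecV (Shf S₃ (s i)) (atp (v' i) (p i) (hp0 i) (hp1 i)) (ε i)).Ne :=
    recV_ne (shf_ne hne₃) _ _
  have hposR : Bas (RecV (Shf S₃ (s i)) (atp (v' i) (p i) (hp0 i) (hp1 i)) (ε i))
      (fun _ F A => 0 < Pe F.p A) :=
    ⟨1, one_pos, 0, fun J _ F A hA => recv_pos _ _ (shf_pos hpos₃) 1 J F A hA⟩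
  have hfin : RDq (Shf S₃ (s i)) (v' i) (ε i) (p i) κ (L i) := by
    refine ⟨q0, q1, hLi, ⟨Na, al, g₀, hal, hg₀, hM, hBi⟩, ?_⟩
    -- the greedy order
    have hκ : ∀ w : ℝ, 0 ≤ w → w < 1 → L i ∅ κ w w = w := fun w hw0 hw1 =>
      hLi.act hneR hal (hM.q hg₀) hBi hposR hw0 hw1
    obtain ⟨D, hD, hcov⟩ := wv_cover (φ := fun j => j) (κ := κ) hLi hκ
    exact ⟨D, hD, fun w hw0 hw1 hwD => hcov w hw0 hw1 hwD⟩
  refine ⟨κ, ?_⟩
  rw [hv'] at hfin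
  exact hfin

end Pool.SHF33
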