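import Pool.Agent.H33.SHF.Rate

/-!
# The rates of the target from zooms of classes with shrunk coordinates

`ZmS`: a zoom of a class with shrunk coordinates whose record contains `Y`, in which the shrunk
target is the last coordinate of a greedy order, with number at most `R₀ + s`; the shifts of the
other coordinates are at most `1 - y`, and `R' + s ≤ 1`. `ZmS.rate`: the rate of the target for the
digits between `R₀` and `R'`, given `Y` and the other coordinates to `y J` digits.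
-/

set_option autoImplicit false

namespace Pool.SHF33

open Finset MvPolynomial
open Pool.Agent.H49.Ent Pool.Agent.H32.Dense Pool.STK
open Pool.KA Pool.KSAT Pool.PB Pool.GEN Pool.K2S Pool.S6C
open Pool.REX Pool.REX83 Pool.FRX

variable {m n k J : ℕ}

/-- **Zooms with shrunk coordinates.** The target is `c (n - 1)`, the other coordinates are
`c 0, …, c (n - 2)`. -/
def ZmS (S : PCl m) (k : ℕ) (c : ℕ → Fin m) (n : ℕ) (y R' R₀ : ℝ)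
    {κY : ∀ J : ℕ, Fam m J → Type} (Y : ∀ (J : ℕ) (F : Fam m J), F.Ω → κY J F) : Prop :=
  ∃ (s : Fin m → ℝ) (v : Vz m) (ε : Fin k → Fin m) (p : ℝ) (κ : Fin k)
    (L : Finset (Fin k) → Fin k → ℝ → ℝ → ℝ) (w : ℝ) (σ : Fin k → Fin k) (i : Fin k),
    RDq (Shf S s) (vshf v s) ε p κ L ∧ Function.Injective σ ∧ w ∈ Wv L σ ∧
    (∀ j : Fin k, (j : ℕ) = 0 → σ j = κ) ∧ (i : ℕ) + 1 = k ∧ ε (σ i) = c (n - 1) ∧
    (∀ l < n - 1, ∃ j : Fin k, j ≠ i ∧ ε (σ j) = c l) ∧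
    0 ≤ s (c (n - 1)) ∧ R' + s (c (n - 1)) ≤ 1 ∧
    (∀ j : Fin k, j ≠ i → max y 0 + s (ε (σ j)) ≤ 1) ∧
    v.b + (1 - v.b) * (p + (1 - p) * vs L σ w k) ≤ R₀ + s (c (n - 1)) ∧
    ∃ J₁ : ℕ, ∀ J ≥ J₁, ∀ (F : Fam m J) (ω ω' : F.Ω), v.y J F ω = v.y J F ω' →
      Y J F ω = Y J F ω'

theorem ZmS.mono {S : PCl m} {c : ℕ → Fin m} {y y' R' R'' R₀ R₁ : ℝ}
    {κY : ∀ J : ℕ, Fam m J → Type} {Y : ∀ (J : ℕ) (F : Fam m J), F.Ω → κY J F}
    (h : ZmS S k c n y R' R₀ Y) (hy : y' ≤ y) (hR : R₀ ≤ R₁) (hR' : R'' ≤ R') :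
    ZmS S k c n y' R'' R₁ Y := by
  obtain ⟨s, v, ε, p, κ, L, w, σ, i, h1, h2, h3, h4, h5, h6, h7, h8, h9, h10, h11, h12⟩ := h
  refine ⟨s, v, ε, p, κ, L, w, σ, i, h1, h2, h3, h4, h5, h6, h7, h8, by linarith,
    fun j hj => ?_, by linarith, h12⟩
  have h13 : max y' 0 ≤ max y 0 := max_le_max hy le_rfl
  linarith [h10 j hj]

/-- **The rate of the target given the record `Y`**, from a zoom with shrunk coordinates. -/
theorem ZmS.rate {S : PCl m} {c : ℕ → Fin m} {y R' R₀ : ℝ} (hy1 : y ≤ 1)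
    {κY : ∀ J : ℕ, Fam m J → Type} {Y : ∀ (J : ℕ) (F : Fam m J), F.Ω → κY J F}
    (h : ZmS S k c n y R' R₀ Y) (hR0 : 0 ≤ R₀) (hne : S.Ne) {C₀ : ℝ} (hC₀ : 0 ≤ C₀)
    (htm : TmC S C₀) {x : ℝ} (hF : FZQ k x) {R₁ R₂ : ℝ} (h1 : R₀ ≤ R₁) (h12 : R₁ ≤ R₂)
    (h2 : R₂ ≤ R') {ρ : ℝ} (hρ : 0 < ρ) :
    Bas S (fun J F A => ((1 - x) * (R₂ - R₁) - ρ) * Real.log 2 * J ≤
      CH (Pool.Agent.H49.Ent.cond F.p A True) (fun ω => F.X ⌊R₂ * J⌋₊ ω (c (n - 1)))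
        (fun ω => (F.X ⌊R₁ * J⌋₊ ω (c (n - 1)), ((fun l : Fin (n - 1) => F.X ⌊y * J⌋₊ ω (c l)),
          (Y J F ω, F.T ω))))) := by
  obtain ⟨s, v, ε, p, κ, L, w, σ, i, a1, a2, a3, a4, a5, a6, a7, a8, a9, a10, a11, J₁, a12⟩ := h
  have hs : 0 ≤ s (ε (σ i)) := by rw [a6]; exact a8
  have key := shf_rate a1 hne hC₀ htm hF a2 a3 a4 a5 hs (hR0.trans h1) h12
    (by rw [a6]; linarith) (by rw [a6]; linarith) hρ
  have hpos : Bas S (fun _ F A => 0 < Pe F.p A) :=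
    ⟨1, one_pos, 0, fun J _ F A hA => (htm 1 J F A one_pos hA).1⟩
  refine Bas.mono J₁ (Bas.and hpos key) fun J hJ F A hA => ?_
  obtain ⟨f1, f2⟩ := hA
  have hJ0 : (0 : ℝ) ≤ J := Nat.cast_nonneg J
  have hkk : ∀ j : Fin k, j ≠ i → ⌊y * J⌋₊ + sd s J (ε (σ j)) ≤ J := by
    intro j hj
    have b1 := a10 j hj
    have b2 : (⌊y * J⌋₊ : ℝ) ≤ max y 0 * J := by
      have b3 : ⌊y * (J : ℝ)⌋₊ ≤ ⌊max y 0 * (J : ℝ)⌋₊ :=
        Nat.floor_le_floor (mul_le_mul_of_nonneg_right (le_max_left _ _) hJ0)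
      have b4 : ((⌊max y 0 * (J : ℝ)⌋₊ : ℕ) : ℝ) ≤ max y 0 * J :=
        Nat.floor_le (mul_nonneg (le_max_right _ _) hJ0)
      exact le_trans (by exact_mod_cast b3) b4
    have b3 : ((sd s J (ε (σ j)) : ℕ) : ℝ) ≤ (1 - max y 0) * J := by
      have b5 : sd s J (ε (σ j)) ≤ ⌊(1 - max y 0) * (J : ℝ)⌋₊ :=
        Nat.floor_le_floor (mul_le_mul_of_nonneg_right (by linarith) hJ0)
      have b6 : (0 : ℝ) ≤ 1 - max y 0 := by
        have := max_le hy1 zero_le_one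
        linarith
      have b7 : ((⌊(1 - max y 0) * (J : ℝ)⌋₊ : ℕ) : ℝ) ≤ (1 - max y 0) * J :=
        Nat.floor_le (mul_nonneg b6 hJ0)
      exact le_trans (by exact_mod_cast b5) b7
    have b4 : ((⌊y * (J : ℝ)⌋₊ + sd s J (ε (σ j)) : ℕ) : ℝ) ≤ J := by
      push_cast
      linarith
    exact_mod_cast b4
  have f3 := f2 (fun _ => ⌊y * J⌋₊) (fun j hj => hkk j hj)
  rw [a6] at f3
  refine f3.trans (CH_mono_cond (isLaw_cond F.isLaw f1).nonneg fun ω ω' _ _ e => ?_)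
  simp only [Prod.mk.injEq] at e
  obtain ⟨⟨e1, e2⟩, e3, e4⟩ := e
  refine Prod.ext e1 (Prod.ext ?_ (Prod.ext (a12 J hJ F ω ω' e3) (congrArg Prod.fst e4)))
  funext l
  obtain ⟨j, j1, j2⟩ := a7 l l.2
  have h3 := congrFun e2 j
  rw [if_neg j1, if_neg j1, j2] at h3
  exact h3

end Pool.SHF33
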