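import Pool.Agent.H65.NFC.Kit
import Pool.Agent.H33.SHF.Zms

/-!
# `RtY` and `ZmP` from the zooms with shrunk coordinates
-/

set_option autoImplicit false

namespace Pool.SHF33

open Finset MvPolynomial
open Pool.Agent.H49.Ent Pool.Agent.H32.Dense Pool.STK Pool.KS3 Pool.STAT Pool.STAT.CLO Pool.MIC6
open Pool.KA Pool.KSAT Pool.PB Pool.GEN Pool.K2S Pool.S6C
open Pool.REX Pool.REX83 Pool.FRX Pool.NFC65

variable {Θ : Type*} {m n n₀ k J : ℕ}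

/-- **The rate of the target given the record `Y`**, from a zoom with shrunk coordinates. -/
theorem ZmS.rty {S : PCl m} {c : ℕ → Fin m} {y₀ R' R₀ : ℝ} (hy1 : y₀ ≤ 1)
    {κY : ∀ J : ℕ, Fam m J → Type} {Y : ∀ (J : ℕ) (F : Fam m J), F.Ω → κY J F}
    (h : ZmS S k c n y₀ R' R₀ Y) (hR0 : 0 ≤ R₀) (hne : S.Ne) {C₀ : ℝ} (hC₀ : 0 ≤ C₀)
    (htm : TmC S C₀) {x : ℝ} (hF : FZQ k x) : RtY S c n x y₀ R' R₀ Y := by
  intro y hy R₁ R₂ h1 h12 h2 ρ hρ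
  exact (h.mono hy le_rfl le_rfl).rate (hy.trans hy1) hR0 hne hC₀ htm hF h1 h12 h2 hρ

/-- **The zooms with shrunk coordinates at the places of a grid.** -/
def ZmSG (Kt : KitP m Θ n₀) (S : PCl m) (K' s₁ : ℕ) (sh : ℕ → ℕ) (k M N : ℕ) (θ : ℝ)
    (p : Θ) : Prop :=
  ∀ (b : ℕ → ℕ → ℕ → ℝ) (e : ℕ → ℕ → ℝ), Kt.Near p N M θ b e →
    ∀ i, 1 ≤ i → i ≤ M → ∀ j ≤ M, ∀ S' : PCl m, S'.Ne →
    (∀ (τ : ℝ) (J : ℕ) (F : Fam m J) (A : F.Ω → Prop), S'.St τ J F A → S.St τ J F A) →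
    ∀ d : ∀ (J : ℕ) (F : Fam m J), GDat F,
    (∀ (τ : ℝ) (J : ℕ) (F : Fam m J) (A : F.Ω → Prop), S'.St τ J F A →
      (Kt.grid K' s₁ sh p N M θ b e).Ok F (d J F) A) →
    ∃ S'' : PCl m, S''.Ne ∧ (∀ (τ : ℝ) (J : ℕ) (F : Fam m J) (A : F.Ω → Prop),
      S''.St τ J F A → S'.St τ J F A) ∧
      ZmS S'' k (Kt.cs p) (n₀ + 1) (1 - msh (Kt.X p) N M)
        (Kt.L p n₀ ((Kt.y p).1 + (Kt.y p).2 + i * msh (Kt.X p) N M)
          ((Kt.y p).1 + j * msh (Kt.X p) N M) + (M + 1) * msh (Kt.X p) N M)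
        (Kt.L p n₀ ((Kt.y p).1 + (Kt.y p).2 + i * msh (Kt.X p) N M)
          ((Kt.y p).1 + j * msh (Kt.X p) N M) + msh (Kt.X p) N M / 2)
        (fun J F ω => ((d J F).cd (n₀ + 1) (Kt.rc p N M θ J F (d J F))).lab2 (up (Kt.y p).1 J)
          (up (msh (Kt.X p) N M) J) i j ω)

/-- **The rates from the zooms with shrunk coordinates.** -/
theorem ZmSG.zmP {Kt : KitP m Θ n₀} {S : PCl m} {K' s₁ : ℕ} {sh : ℕ → ℕ} {M N : ℕ} {θ : ℝ}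
    {p : Θ} (hX : 0 ≤ Kt.X p) (hL : ∀ i, 1 ≤ i → i ≤ M → ∀ j ≤ M,
      0 ≤ Kt.L p n₀ ((Kt.y p).1 + (Kt.y p).2 + i * msh (Kt.X p) N M)
          ((Kt.y p).1 + j * msh (Kt.X p) N M))
    {C₀ : ℝ} (hC₀ : 0 ≤ C₀) (htm : TmC S C₀) {x : ℝ}
    (hF : FZQ k x) (h : ZmSG Kt S K' s₁ sh k M N θ p) : ZmP Kt S K' s₁ sh x M N θ p := by
  intro b e hb i hi1 hi j hj S' hne hsub d hd
  obtain ⟨S'', hne'', hsub'', hZ⟩ := h b e hb i hi1 hi j hj S' hne hsub d hd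
  have h1 := hL i hi1 hi j hj
  have hm : 0 ≤ msh (Kt.X p) N M := by
    unfold msh
    positivity
  exact ⟨S'', hne'', hsub'', hZ.rty (by linarith) (by linarith) hne'' hC₀
    (fun τ J F A hτ h => htm τ J F A hτ (hsub τ J F A (hsub'' τ J F A h))) hF⟩

end Pool.SHF33
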