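import Pool.Agent.H89.TGT.Lbr
import Pool.Agent.H33.SHF.Shf

/-!
# Labels of the shrunk families are labels of the families

`Lbr.unshf`: a closed label with a record (`Lbr`, helper89) of `shf F s` is one of `F`, with the
same record; the precision is `P - s k`. `Lbr.fineD`: finer records. `Lbr.unz`: the record of the
zoom `vshf v s` of the shrunk family is replaced by the record of the zoom `v` of the family.
-/

set_option autoImplicit false

namespace Pool.SHF33

open Finset Real MvPolynomial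
open Pool.Agent.H49.Ent Pool.Agent.H32.Dense Pool.STK Pool.KA Pool.KSAT Pool.K2S Pool.PB Pool.S6C
open Pool.GEN Pool.REX Pool.REX83 Pool.GRW Pool.TGT

variable {m n J : ℕ}

/-! ### Digits -/

theorem floor_div (a : ℝ) (k : ℕ) : ⌊a / 2 ^ k⌋ = ⌊a⌋ / 2 ^ k := by
  have h2 := Int.floor_div_natCast a (2 ^ k)
  push_cast at h2
  exact h2

/-- The digits of the shrunk positions are functions of the digits of the positions. -/
theorem shf_Xd (F : Fam m J) (s : Fin m → ℕ) (j : ℕ) (ω : F.Ω) (i : Fin m) :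
    (shf F s).X j ω i = F.X j ω i / 2 ^ s i := by
  have h1 : (shf F s).X j ω i = ⌊(2 : ℝ) ^ j * (shf F s).x ω i⌋ := rfl
  have h2 : F.X j ω i = ⌊(2 : ℝ) ^ j * F.x ω i⌋ := rfl
  rw [h1, h2, shf_x, ← floor_div, mul_div_assoc]

/-- The digits of the shrunk directions are functions of the digits of the directions. -/
theorem shf_Dd (F : Fam m J) (s : Fin m → ℕ) (j : ℕ) (ω : F.Ω) (i : Fin m) :
    (shf F s).D j ω i = F.D j ω i / 2 ^ s i := by
  have h1 : (shf F s).D j ω i = ⌊(2 : ℝ) ^ j * (F.d ω i / 2 ^ s i)⌋ := rfl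
  have h2 : F.D j ω i = ⌊(2 : ℝ) ^ j * F.d ω i⌋ := rfl
  rw [h1, h2, ← floor_div, mul_div_assoc]

theorem shf_ptr (F : Fam m J) (s : Fin m → ℕ) (ω : F.Ω) :
    ptr (shf F s) J ω = (fun i => (ptr F J ω).1 i / 2 ^ s i, (ptr F J ω).2) := by
  refine Prod.ext ?_ rfl
  funext i
  exact shf_Xd F s J ω i

/-! ### Polynomials -/

/-- The shrunk variables. -/
noncomputable def svr (s : Fin m → ℕ) : Option (Fin m) → MvPolynomial (Option (Fin m)) ℝ
  | none => X none
  | some l => C (1 / 2 ^ s l) * X (some l)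

/-- The label of the coordinate `k`, by a label `G` of the shrunk coordinate. -/
noncomputable def ush (s : Fin m → ℕ) (k : Fin m) (G : MvPolynomial (Option (Fin m)) ℝ) :
    MvPolynomial (Option (Fin m)) ℝ := C (2 ^ s k) * aeval (svr s) G

/-- The shrunk point. -/
noncomputable def spt (s : Fin m → ℕ) (b : Option (Fin m) → ℝ) : Option (Fin m) → ℝ
  | none => b none
  | some l => b (some l) / 2 ^ s l

theorem eval_svr (s : Fin m → ℕ) (b : Option (Fin m) → ℝ) (o : Option (Fin m)) :
    eval b (svr s o) = spt s b o := by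
  rcases o with _ | l
  · show eval b (X none) = b none
    rw [eval_X]
  · show eval b (C (1 / 2 ^ s l) * X (some l)) = b (some l) / 2 ^ s l
    rw [map_mul, eval_C, eval_X]
    ring

theorem eval_ush (s : Fin m → ℕ) (k : Fin m) (G : MvPolynomial (Option (Fin m)) ℝ)
    (b : Option (Fin m) → ℝ) : eval b (ush s k G) = 2 ^ s k * eval (spt s b) G := by
  unfold ush
  rw [map_mul, eval_C, eval_aevalσ]
  congr 2
  simp only [eval_svr]

theorem deg_ush (s : Fin m → ℕ) (k : Fin m) {G : MvPolynomial (Option (Fin m)) ℝ} {K : ℕ}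
    (hG : G.totalDegree ≤ K) : (ush s k G).totalDegree ≤ K := by
  unfold ush
  refine (totalDegree_mul _ _).trans ?_
  rw [totalDegree_C, zero_add]
  have h1 := totalDegree_aevalσ (g := svr s) (d := 1) (fun o => by
    rcases o with _ | l
    · show (X none : MvPolynomial (Option (Fin m)) ℝ).totalDegree ≤ 1
      rw [totalDegree_X]
    · show (C (1 / 2 ^ s l) * X (some l) : MvPolynomial (Option (Fin m)) ℝ).totalDegree ≤ 1
      refine (totalDegree_mul _ _).trans ?_
      rw [totalDegree_C, totalDegree_X]) hG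
  omega

/-! ### Labels -/

/-- **The labels of the shrunk family are labels of the family.** -/
theorem Lbr.unshf {F : Fam m J} {s : Fin m → ℕ} {I : Finset (Fin m)} {k : Fin m} {K w P : ℕ}
    {κ : Type} {yd : F.Ω → κ} {A : F.Ω → Prop} {V : Type} {z : PtT (shf F s) → κ → V}
    {z' : LnT (shf F s) → V} {G : V → MvPolynomial (Option (Fin m)) ℝ}
    (h : Lbr (shf F s) I k K w P yd A z z' G) (hs : s k ≤ P) :
    Lbr F I k K w (P - s k) yd A (fun u v => z (fun i => u.1 i / 2 ^ s i, u.2) v)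
      (fun t => z' (((fun i => t.1.1 i / 2 ^ s i), (fun i => t.1.2 i / 2 ^ s i)), t.2))
      (fun v => ush s k (G v)) := by
  refine ⟨fun v => deg_ush s k (h.deg v), fun v b b' hn hb => ?_, fun ω hω => ?_,
    fun ω hω b hb => ?_⟩
  · rw [eval_ush, eval_ush]
    congr 1
    refine h.dep v _ _ hn fun i hi => ?_
    show b (some i) / 2 ^ s i = b' (some i) / 2 ^ s i
    rw [hb i hi]
  · have h1 := h.cls ω hω
    rw [shf_ptr] at h1
    exact h1
  · have h1 := h.pos ω hω (spt s b) (fun o => ?_)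
    · have h2 : (shf F s).x ω k = F.x ω k / 2 ^ s k := shf_x F s ω k
      rw [h2] at h1
      have e1 : F.x ω k - eval b (ush s k (G (z' (slam (shf F s) w ω)))) =
          2 ^ s k * (F.x ω k / 2 ^ s k - eval (spt s b) (G (z' (slam (shf F s) w ω)))) := by
        rw [eval_ush, mul_sub, mul_div_cancel₀ _ (by positivity : (2 : ℝ) ^ s k ≠ 0)]
      have e2 : F.x ω k - eval b (ush s k (G (z' (((fun i => (slam F w ω).1.1 i / 2 ^ s i),
          (fun i => (slam F w ω).1.2 i / 2 ^ s i)), (slam F w ω).2)))) =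
          F.x ω k - eval b (ush s k (G (z' (slam (shf F s) w ω)))) := rfl
      rw [e2, e1, abs_mul, abs_of_pos (by positivity : (0 : ℝ) < 2 ^ s k)]
      have e3 : (1 : ℝ) / 2 ^ (P - s k) = 2 ^ s k * (1 / 2 ^ P) := by
        obtain ⟨c, rfl⟩ := Nat.exists_eq_add_of_le hs
        rw [Nat.add_sub_cancel_left, pow_add]
        field_simp
      rw [e3]
      exact mul_le_mul_of_nonneg_left h1 (by positivity)
    · rcases o with _ | l
      · exact hb none
      · have h2 : bt (shf F s) ω (some l) = F.x ω l / 2 ^ s l := shf_x F s ω l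
        rw [h2]
        show |b (some l) / 2 ^ s l - F.x ω l / 2 ^ s l| ≤ 1 / 2 ^ J
        rw [← sub_div, abs_div, abs_of_pos (by positivity : (0 : ℝ) < 2 ^ s l)]
        exact (div_le_self (abs_nonneg _) (one_le_pow₀ one_le_two)).trans (hb (some l))

/-- **A finer record.** -/
theorem Lbr.fineD {F : Fam m J} {I : Finset (Fin m)} {k : Fin m} {K w P : ℕ} {κ κ' : Type}
    {yd : F.Ω → κ} {yd' : F.Ω → κ'} {A : F.Ω → Prop} {V : Type} {z : PtT F → κ → V}
    {z' : LnT F → V} {G : V → MvPolynomial (Option (Fin m)) ℝ}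
    (hy : ∀ ω ω', A ω → A ω' → yd' ω = yd' ω' → yd ω = yd ω')
    (h : Lbr F I k K w P yd A z z' G) : ∃ zz : PtT F → κ' → V, Lbr F I k K w P yd' A zz z' G := by
  classical
  obtain ⟨ω₀, -⟩ : ∃ ω : F.Ω, True := by
    by_contra hcon
    push Not at hcon
    have h1 := F.isLaw.sum_one
    have : IsEmpty F.Ω := ⟨fun ω => hcon ω⟩
    rw [Finset.univ_eq_empty, Finset.sum_empty] at h1
    exact zero_ne_one h1
  refine ⟨fun u v => if hv : ∃ ω, A ω ∧ yd' ω = v then z u (yd hv.choose) else
    z' (slam F w ω₀), h.deg, h.dep, fun ω hω => ?_, h.pos⟩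
  have hv : ∃ ω', A ω' ∧ yd' ω' = yd' ω := ⟨ω, hω, rfl⟩
  simp only [dif_pos hv]
  have h1 : yd hv.choose = yd ω := hy _ _ hv.choose_spec.1 hω hv.choose_spec.2
  rw [h1]
  exact h.cls ω hω

/-- **The labels of the zooms of the shrunk families**, with the record of the family. -/
theorem Lbr.unz (v : Vz m) (s : Fin m → ℝ) {F : Fam m J} {ε : Fin n → Fin m}
    {I : Finset (Fin m)} {k : Fin m} {K w P Q : ℕ} {A : F.Ω → Prop} {V : Type}
    {z : PtT (shf F (sd s J)) → (vshf v s).κ J (shf F (sd s J)) × (Fin n → ℤ) → V}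
    {z' : LnT (shf F (sd s J)) → V} {G : V → MvPolynomial (Option (Fin m)) ℝ}
    (h : Lbr (shf F (sd s J)) I k K w P
      (ydg (shf F (sd s J)) ((vshf v s).y J (shf F (sd s J))) ε Q) A z z' G)
    (hs : sd s J k ≤ P) :
    ∃ (zz : PtT F → v.κ J F × (Fin n → ℤ) → V) (zz' : LnT F → V),
      Lbr F I k K w (P - sd s J k) (ydg F (v.y J F) ε Q) A zz zz'
        (fun v => ush (sd s J) k (G v)) := by
  have h1 := Lbr.unshf (F := F) (yd := fun ω : F.Ω =>
    ydg (shf F (sd s J)) ((vshf v s).y J (shf F (sd s J))) ε Q ω) h hs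
  obtain ⟨zz, h2⟩ := Lbr.fineD (yd' := ydg F (v.y J F) ε Q) (fun ω ω' _ _ e => by
    have e1 : v.y J F ω = v.y J F ω' := congrArg Prod.fst e
    have e2 : (fun k => F.D Q ω (ε k)) = fun k => F.D Q ω' (ε k) := congrArg Prod.snd e
    refine Prod.ext ((vshf_y v s F ω ω').2 e1) ?_
    funext j
    have e3 : F.D Q ω (ε j) = F.D Q ω' (ε j) := congrFun e2 j
    show (shf F (sd s J)).D Q ω (ε j) = (shf F (sd s J)).D Q ω' (ε j)
    rw [shf_Dd, shf_Dd, e3]) h1
  exact ⟨zz, _, h2⟩

end Pool.SHF33
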